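import Mathlib
import Pool.Agent.H90.P.Ns
import Pool.Agent.H90.P.Helper386.D5V.Helper386_FF_Place
import Pool.Agent.H90.P.Helper386.D5V.Helper399_OverDefs
import Pool.Agent.H90.P.W619.PQ.Defs
import Pool.Agent.H90.P.W619.PQ.Log

/-! Groups permuting the factors: statements of the parts. -/

set_option autoImplicit false
set_option linter.overlappingInstances false
set_option linter.unusedSectionVars false

universe u v

open FF IntermediateField Pool.Agent.W619.PQ Pool.Agent.W619.PL Pool.Agent.W619.TW
  Pool.Agent.W603.LV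

namespace Pool.Agent.W619.Y

/-- Derivations which preserve the valuation ring of `v` in `K` (and are logarithmic if `w` is
ramified over `v`) preserve the valuation ring of `w`. -/
def S_PRES : Prop := ∀ (k : Type v) (K L : Type u) [Field k] [CharZero k] [Field K] [Field L]
  [Algebra k K] [Algebra k L] [Algebra K L] [IsScalarTower k K L] [FiniteDimensional K L]
  (v : Place k K) (w : Place k L) (e : ℕ), Over w v e → ∀ D : Derivation k L L,
    (∀ x : K, v.Reg x → w.Reg (D (algebraMap K L x))) →
    (e = 1 ∨ ∀ x : K, v.Reg x → w.Reg (D (algebraMap K L x) / algebraMap K L x)) →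
    ∀ z : L, w.Reg z → w.Reg (D z)

/-- Derivations which are logarithmic at `v` on `K` are logarithmic at `w` on `L`. -/
def S_LOG : Prop := ∀ (k : Type v) (K L : Type u) [Field k] [CharZero k] [Field K] [Field L]
  [Algebra k K] [Algebra k L] [Algebra K L] [IsScalarTower k K L] [FiniteDimensional K L]
  (v : Place k K) (w : Place k L) (e : ℕ), Over w v e → ∀ D : Derivation k L L,
    (∀ x : K, w.Reg (D (algebraMap K L x) / algebraMap K L x)) →
    ∀ z : L, w.Reg (D z / z)

/-- Coordinates at a divisorial place. -/
def S_FRAME : Prop := ∀ (k : Type v) (K : Type u) [Field k] [CharZero k] [Field K] [Algebra k K]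
  (n : ℕ), Algebra.trdeg k K = n →
    (∀ y : Fin n → K, IsTranscendenceBasis k y →
      FiniteDimensional (IntermediateField.adjoin k (Set.range y)) K) →
    ∀ v : Place k K, IsDivisorial v n →
    ∃ (y : Fin n → K) (E : Fin n → Derivation k K K) (i0 : Fin n), IsTranscendenceBasis k y ∧
      (∀ i j, E i (y j) = if i = j then 1 else 0) ∧ v.ord (y i0) = 1 ∧ (∀ i, v.Reg (y i)) ∧
      ∀ i, Pres v (E i)

/-- Extension of derivations. -/
def S_EXT : Prop := ∀ (k : Type v) (K L : Type u) [Field k] [CharZero k] [Field K] [Field L]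
  [Algebra k K] [Algebra k L] [Algebra K L] [IsScalarTower k K L] [Algebra.IsAlgebraic K L]
  (n : ℕ), Algebra.trdeg k K = n → ∀ D : Derivation k K K, ∃ D' : Derivation k L L,
    (∀ f : K, D' (algebraMap K L f) = algebraMap K L (D f)) ∧
    (∀ D'' : Derivation k L L, (∀ f : K, D'' (algebraMap K L f) = algebraMap K L (D f)) →
      D'' = D') ∧
    ∀ g : L ≃ₐ[k] L, (∀ f : K, g (algebraMap K L f) = algebraMap K L f) →
      ∀ z : L, g (D' z) = D' (g z)

end Pool.Agent.W619.Y
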