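import Mathlib
import Pool.Agent.H90.P.Ns
import Pool.Agent.H90.P.W240.PG.Frame
import Pool.Agent.H90.P.W619.Y.LogP
import Pool.Agent.H90.P.W619.Y.Stm
import Pool.Agent.H90.P.W762.PG.PRES

/-! The proved parts. -/

set_option autoImplicit false

universe u v

namespace Pool.Agent.W619.Y

theorem pPRES : S_PRES.{u, v} := Pool.Agent.W762.PG.main
theorem pLOG : S_LOG.{u, v} := Pool.Agent.W619.Y.LogP.main pPRES
theorem pFRAME : S_FRAME.{u, v} := Pool.Agent.W240.PG.Frame.main pPRES
end Pool.Agent.W619.Y
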